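import Pool.Agent.H24.UG.T7
import Pool.Agent.H88.AG.A1

/-!
# UAS: the inequality for one conditional variance
-/

set_option autoImplicit false

open MeasureTheory ProbabilityTheory Filter Topology Finset
open scoped Nat ENNReal

namespace Pool.Agent.H33.UG

open Pool.Agent.H24.UG
open Pool.Agent.H24.T2 (Pset)
open Pool.Agent.H67.AG (avgP ul Inv Rt Av SA kap JJ TT InvZ nxt triv tow XN PN TN XX PX TX prX Fac
  Tup dl Dlt Mis bd κ₀ Sw SwE T_UL T_PN)
open Pool.Agent.H88.AG (avgP_mono avgP_bd smul_avgP pre_dvd set_shift dvd_pred int_bd)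

theorem Db_meas (c : CxE) (i : Fin c.k) : Measurable (c.Db i) := by
  unfold CxE.Db
  exact measurable_const.max (measurable_const.min
    (stronglyMeasurable_condExp.mono (tow c.μ c.T (c.k - 1)).2).measurable)

theorem Db_bd (c : CxE) (i : Fin c.k) (x : c.X) : |c.Db i x| ≤ 1 := by
  unfold CxE.Db
  rw [abs_le]
  exact ⟨le_max_left _ _, max_le (by norm_num) (min_le_left _ _)⟩

theorem pf_UAS (hul : Pool.Agent.H67.AG.T_UL) (hpn : Pool.Agent.H67.AG.T_PN) (ha0 : T_UA0) :
    T_UAS := by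
  intro c hk w i A hγ hA
  have hT := c.erg.toMeasurePreserving
  have hm : ∀ n : ℕ, Measurable (c.T^[n]) := fun n => (hT.iterate n).measurable
  obtain ⟨hA1, hA2⟩ := MeasurableSpace.measurableSet_invariants.1 hA
  obtain ⟨-, hmono, -, hsmul, -⟩ := hul (c.U w)
  have hσ : ∀ p, |c.σ p| ≤ 1 := by
    intro p
    rcases c.σv p with h | h | h <;> rw [h] <;> norm_num
  obtain ⟨I, hI⟩ : ∃ I, I = ∫ x in A, |c.Db i x| ∂c.μ := ⟨_, rfl⟩
  have hDi : Integrable (fun x => |c.Db i x|) (c.μ.restrict A) :=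
    int_bd (Db_meas c i).abs.aestronglyMeasurable 1
      (Eventually.of_forall fun x => by rw [abs_abs]; exact Db_bd c i x)
  have hI0 : 0 ≤ I := by
    rw [hI]
    exact integral_nonneg fun x => abs_nonneg _
  have hIA : I ≤ c.μ.real A := by
    rw [hI]
    calc ∫ x in A, |c.Db i x| ∂c.μ ≤ ∫ x in A, (1 : ℝ) ∂c.μ :=
          integral_mono hDi (integrable_const _) fun x => Db_bd c i x
      _ = c.μ.real A := by
          rw [integral_const, smul_eq_mul, mul_one, measureReal_restrict_apply MeasurableSet.univ,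
            Set.univ_inter]
  have hI1 : I ≤ 1 := hIA.trans measureReal_le_one
  have hone : ∀ m p, p ∈ Pset (c.W w) m →
      c.σ p * ∫ x in A, ∏ i, c.Db i (c.T^[(p - 1) * c.β i] x) ∂c.μ ≤ I * |c.σ p| := by
    intro m p hp
    have h1 : |∫ x in A, ∏ i, c.Db i (c.T^[(p - 1) * c.β i] x) ∂c.μ| ≤ I := by
      have h2 : I = ∫ x in A, |c.Db i (c.T^[(p - 1) * c.β i] x)| ∂c.μ := by
        rw [hI]
        exact (set_shift hT hA1 (pre_dvd hA2 (Dvd.dvd.mul_right (dvd_pred hp) _))
          (Db_meas c i).abs).symm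
      rw [h2]
      refine (abs_integral_le_integral_abs).trans ?_
      refine integral_mono_of_nonneg (Eventually.of_forall fun x => abs_nonneg _) ?_
        (Eventually.of_forall fun x => ?_)
      · exact int_bd ((Db_meas c i).comp (hm _)).abs.aestronglyMeasurable 1
          (Eventually.of_forall fun x => by rw [abs_abs]; exact Db_bd c i _)
      · show |∏ j, c.Db j (c.T^[(p - 1) * c.β j] x)| ≤ |c.Db i (c.T^[(p - 1) * c.β i] x)|
        rw [Finset.abs_prod, ← Finset.mul_prod_erase Finset.univ _ (Finset.mem_univ i)]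
        exact mul_le_of_le_one_right (abs_nonneg _)
          (Finset.prod_le_one (fun j _ => abs_nonneg _) fun j _ => Db_bd c j _)
    calc c.σ p * ∫ x in A, ∏ i, c.Db i (c.T^[(p - 1) * c.β i] x) ∂c.μ
        ≤ |c.σ p * ∫ x in A, ∏ i, c.Db i (c.T^[(p - 1) * c.β i] x) ∂c.μ| := le_abs_self _
      _ = |c.σ p| * |∫ x in A, ∏ i, c.Db i (c.T^[(p - 1) * c.β i] x) ∂c.μ| := abs_mul _ _
      _ ≤ |c.σ p| * I := mul_le_mul_of_nonneg_left h1 (abs_nonneg _)
      _ = I * |c.σ p| := mul_comm _ _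
  have hb1 : ∀ m, |avgP (c.W w) m fun p =>
      c.σ p * ∫ x in A, ∏ i, c.Db i (c.T^[(p - 1) * c.β i] x) ∂c.μ| ≤ 1 := by
    intro m
    refine avgP_bd zero_le_one fun p => ?_
    have h1 : ∀ x, ‖∏ i, c.Db i (c.T^[(p - 1) * c.β i] x)‖ ≤ 1 := fun x => by
      rw [Real.norm_eq_abs, Finset.abs_prod]
      exact Finset.prod_le_one (fun i _ => abs_nonneg _) fun i _ => Db_bd c i _
    have h2 := norm_setIntegral_le_of_norm_le_const (μ := c.μ) (s := A)
      (measure_lt_top c.μ A) (fun x _ => h1 x)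
    rw [Real.norm_eq_abs, one_mul] at h2
    rw [abs_mul]
    exact mul_le_one₀ (hσ p) (abs_nonneg _) (h2.trans measureReal_le_one)
  have hb2 : ∀ m, |avgP (c.W w) m (fun p => |c.σ p|)| ≤ 1 := fun m =>
    avgP_bd zero_le_one fun p => by rw [abs_abs]; exact hσ p
  have hmain : dn (c.U w) (c.W w) c.σ * c.μ.real A -
      2 * Lm (c.U w) (c.W w) c.μ c.T c.β c.σ c.Dt A ≤ I * dn (c.U w) (c.W w) c.σ := by
    rw [ha0 c hk w A hA]
    unfold dn
    rw [← hsmul _ I ⟨1, hb2⟩]
    refine hmono _ _ ⟨1, hb1⟩ ⟨1, fun m => ?_⟩ (Eventually.of_forall fun m => ?_)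
    · rw [abs_mul, abs_of_nonneg hI0]
      exact mul_le_one₀ hI1 (abs_nonneg _) (hb2 m)
    · show avgP (c.W w) m _ ≤ I * avgP (c.W w) m _
      rw [smul_avgP]
      exact avgP_mono fun p hp => hone m p hp
  have haa : ∫ x in A, c.aa i x ∂c.μ ≤ 2 * (c.μ.real A - I) := by
    have h1 : 2 * (c.μ.real A - I) = ∫ x in A, 2 * (1 - |c.Db i x|) ∂c.μ := by
      rw [integral_const_mul, integral_sub (integrable_const _) hDi, ← hI, integral_const,
        smul_eq_mul, mul_one, measureReal_restrict_apply MeasurableSet.univ, Set.univ_inter]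
    rw [h1]
    refine integral_mono ?_ (((integrable_const _).sub hDi).const_mul 2) fun x => ?_
    · refine int_bd ?_ 1 (Eventually.of_forall fun x => ?_)
      · exact (measurable_const.sub ((Db_meas c i).pow_const 2)).aestronglyMeasurable
      · unfold CxE.aa
        have h2 := sq_le_one_iff_abs_le_one (c.Db i x) |>.2 (Db_bd c i x)
        rw [abs_le]
        exact ⟨by linarith, by nlinarith [sq_nonneg (c.Db i x)]⟩
    · show c.aa i x ≤ 2 * (1 - |c.Db i x|)
      unfold CxE.aa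
      have h2 : c.Db i x ^ 2 = |c.Db i x| ^ 2 := (sq_abs _).symm
      rw [h2]
      nlinarith [sq_nonneg (1 - |c.Db i x|)]
  have haa0 : 0 ≤ ∫ x in A, c.aa i x ∂c.μ := by
    refine integral_nonneg fun x => ?_
    show 0 ≤ c.aa i x
    unfold CxE.aa
    have h2 := sq_le_one_iff_abs_le_one (c.Db i x) |>.2 (Db_bd c i x)
    linarith
  have hγ0 := c.γ0
  calc c.γ * ∫ x in A, c.aa i x ∂c.μ
      ≤ dn (c.U w) (c.W w) c.σ * ∫ x in A, c.aa i x ∂c.μ := mul_le_mul_of_nonneg_right hγ haa0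
    _ ≤ dn (c.U w) (c.W w) c.σ * (2 * (c.μ.real A - I)) :=
        mul_le_mul_of_nonneg_left haa (hγ0.le.trans hγ)
    _ ≤ 4 * Lm (c.U w) (c.W w) c.μ c.T c.β c.σ c.Dt A := by nlinarith

end Pool.Agent.H33.UG
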